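import Mathlib
import Pool.Agent.H418.FA.Core

/-!
The intersection of the open normal subgroups with nonabelian simple quotients.
-/

set_option autoImplicit false

namespace Pool.Agent.H418.FP

open Pool.Agent.H418.FA

section grp

variable {G : Type} [Group G]

/-- Conjugation invariance of `M ⊔ N` under `J` and `N`. -/
theorem normal_sup_of {N J M : Subgroup G} (hN : N.Normal) (hJN : J ⊔ N = ⊤)
    (hM : ∀ j ∈ J, ∀ m ∈ M, j * m * j⁻¹ ∈ M) : (M ⊔ N).Normal := by
  refine ⟨fun x hx g => ?_⟩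
  obtain ⟨m, hm, l, hl, rfl⟩ := Subgroup.mem_sup_of_normal_right.1 hx
  have hg : g ∈ J ⊔ N := hJN ▸ Subgroup.mem_top g
  obtain ⟨j, hj, k, hk, rfl⟩ := Subgroup.mem_sup_of_normal_right.1 hg
  have h5 : j * k * (m * l) * (j * k)⁻¹ =
      (j * m * j⁻¹) * ((j * (m⁻¹ * k * m⁻¹⁻¹) * j⁻¹) * (j * (l * k⁻¹) * j⁻¹)) := by group
  rw [h5]
  exact Subgroup.mul_mem_sup (hM j hj m hm) (N.mul_mem (hN.conj_mem _ (hN.conj_mem _ hk _) _)
    (hN.conj_mem _ (N.mul_mem hl (N.inv_mem hk)) _))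

/-- Restriction to a normal subgroup. -/
theorem ns_subgroupOf {N J : Subgroup G} (h : NS N) (hJ : J.Normal) (hJN : ¬ J ≤ N) :
    NS (N.subgroupOf J) := by
  have hN := h.normal
  have hJN' := h.sup_eq_top hJ hJN
  refine ⟨hN.subgroupOf J, ?_, ?_⟩
  · obtain ⟨a, ha, b, hb, hab⟩ := h.exists_comm hJN' hJN'
    exact ⟨⟨a, ha⟩, ⟨b, hb⟩, fun hc => hab hc⟩
  · intro M hM hNM
    have h1 : ((M.map J.subtype) ⊔ N).Normal := by
      refine normal_sup_of hN hJN' ?_
      rintro j hj _ ⟨m, hm, rfl⟩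
      exact ⟨⟨j, hj⟩ * m * ⟨j, hj⟩⁻¹, hM.conj_mem m hm _, rfl⟩
    rcases h.max _ h1 le_sup_right with h2 | h2
    · left
      refine le_antisymm (fun m hm => ?_) hNM
      change (m : G) ∈ N
      rw [← h2]
      exact Subgroup.mem_sup_left ⟨m, hm, rfl⟩
    · right
      rw [eq_top_iff]
      rintro ⟨j, hj⟩ -
      have h3 : j ∈ (M.map J.subtype) ⊔ N := h2 ▸ Subgroup.mem_top j
      obtain ⟨_, ⟨m, hm, rfl⟩, l, hl, hml⟩ := Subgroup.mem_sup_of_normal_right.1 h3
      have h4 : l = (m : G)⁻¹ * j := by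
        rw [← hml]
        exact (inv_mul_cancel_left (m : G) l).symm
      have h5 : (m⁻¹ * ⟨j, hj⟩ : J) ∈ M := hNM (by
        change ((m : G)⁻¹ * j) ∈ N
        rw [← h4]
        exact hl)
      have h6 := M.mul_mem hm h5
      rwa [mul_inv_cancel_left] at h6

/-- Comap along a surjective homomorphism. -/
theorem NS_comap {Q : Type} [Group Q] {N : Subgroup Q} (h : NS N) (f : G →* Q)
    (hf : Function.Surjective f) : NS (N.comap f) := by
  have := h.normal
  refine ⟨this.comap f, ?_, ?_⟩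
  · obtain ⟨a, b, hab⟩ := h.ncomm
    obtain ⟨x, rfl⟩ := hf a
    obtain ⟨y, rfl⟩ := hf b
    refine ⟨x, y, fun hc => hab ?_⟩
    rw [Subgroup.mem_comap] at hc
    simpa using hc
  · intro M hM hNM
    have hk : f.ker ≤ M := (fun x hx => hNM (by
      rw [Subgroup.mem_comap, MonoidHom.mem_ker.1 hx]
      exact N.one_mem))
    have hc : (M.map f).comap f = M := by
      rw [Subgroup.comap_map_eq, sup_eq_left]
      exact hk
    have h2 : N ≤ M.map f := by
      intro y hy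
      obtain ⟨x, rfl⟩ := hf y
      exact ⟨x, hNM hy, rfl⟩
    rcases h.max (M.map f) (hM.map f hf) h2 with h3 | h3
    · left
      rw [← hc, h3]
    · right
      rw [← hc, h3]
      rfl

variable (G) in
/-- The intersection of all normal subgroups with nonabelian simple quotients. -/
def Res : Subgroup G := sInf {N | NS N}

theorem mem_Res (x : G) : x ∈ Res G ↔ ∀ N : Subgroup G, NS N → x ∈ N := Subgroup.mem_sInf

theorem Res_normal : (Res G).Normal := by
  refine ⟨fun x hx g => ?_⟩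
  rw [mem_Res] at hx ⊢
  intro N hN
  exact hN.normal.conj_mem x (hx N hN) g

/-- Monotonicity. -/
theorem Res_mono (J : Subgroup G) (hJ : J.Normal) (x : J) (hx : x ∈ Res J) : (x : G) ∈ Res G := by
  rw [mem_Res] at hx ⊢
  intro N hN
  by_cases h : J ≤ N
  · exact h x.2
  · exact hx _ (ns_subgroupOf hN hJ h)

/-- Invariance under isomorphisms. -/
theorem Res_equiv {G' : Type} [Group G'] (e : G ≃* G') (x : G) (hx : x ∈ Res G) : e x ∈ Res G' := by
  rw [mem_Res] at hx ⊢
  intro N hN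
  exact hx _ (NS_comap hN (e : G →* G') e.surjective)

/-- Two commuting conjugate subgroups of a normal subgroup `X` which are normalised by `X`. -/
theorem le_of_commuting (X X1 X2 : Subgroup G) (hX : X.Normal) (h1 : X1 ≤ X)
    (hn1 : ∀ x ∈ X, ∀ y ∈ X1, x * y * x⁻¹ ∈ X1) (hn2 : ∀ x ∈ X, ∀ y ∈ X2, x * y * x⁻¹ ∈ X2)
    (hc : ∀ x ∈ X1, ∀ y ∈ X2, x * y * x⁻¹ * y⁻¹ = 1) (t : G)
    (ht : ∀ x ∈ X1, t * x * t⁻¹ ∈ X2) (N : Subgroup G) (hN : NS N) : X1 ≤ N := by
  have hNn := hN.normal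
  by_contra h
  have h2 : ¬ X2 ≤ N := by
    intro h2
    apply h
    intro x hx
    have h3 := hNn.conj_mem _ (h2 (ht x hx)) t⁻¹
    have h4 : t⁻¹ * (t * x * t⁻¹) * t⁻¹⁻¹ = x := by group
    rwa [h4] at h3
  have hXN : X ⊔ N = ⊤ := hN.sup_eq_top hX (fun hc => h (h1.trans hc))
  have h3 : ∀ Y : Subgroup G, (∀ x ∈ X, ∀ y ∈ Y, x * y * x⁻¹ ∈ Y) → ¬ Y ≤ N → Y ⊔ N = ⊤ := by
    intro Y hY hYN
    rcases hN.max _ (normal_sup_of hNn hXN hY) le_sup_right with h4 | h4
    · exact absurd (h4 ▸ le_sup_left) hYN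
    · exact h4
  obtain ⟨a, ha, b, hb, hab⟩ := hN.exists_comm (h3 X1 hn1 h) (h3 X2 hn2 h2)
  exact hab (by rw [hc a ha b hb]; exact N.one_mem)

end grp

section top

variable (G : Type) [Group G] [TopologicalSpace G]

/-- The intersection of all open normal subgroups with nonabelian simple quotients. -/
def TRes : Subgroup G := sInf {N | NS N ∧ IsOpen (N : Set G)}

variable {G}

theorem mem_TRes (x : G) :
    x ∈ TRes G ↔ ∀ N : Subgroup G, NS N → IsOpen (N : Set G) → x ∈ N := by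
  unfold TRes
  rw [Subgroup.mem_sInf]
  exact ⟨fun h N h1 h2 => h N ⟨h1, h2⟩, fun h N h1 => h N h1.1 h1.2⟩

theorem TRes_normal : (TRes G).Normal := by
  refine ⟨fun x hx g => ?_⟩
  rw [mem_TRes] at hx ⊢
  intro N hN hNo
  exact hN.normal.conj_mem x (hx N hN hNo) g

theorem TRes_isClosed [IsTopologicalGroup G] : IsClosed (TRes G : Set G) := by
  unfold TRes
  rw [Subgroup.coe_sInf]
  exact isClosed_biInter fun N hN => Subgroup.isClosed_of_isOpen N hN.2

theorem TRes_mono (J : Subgroup G) (hJ : J.Normal) (x : J) (hx : x ∈ TRes J) :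
    (x : G) ∈ TRes G := by
  rw [mem_TRes] at hx ⊢
  intro N hN hNo
  by_cases h : J ≤ N
  · exact h x.2
  · exact hx _ (ns_subgroupOf hN hJ h) (hNo.preimage continuous_subtype_val)

/-- Images. -/
theorem TRes_map [IsTopologicalGroup G] [CompactSpace G] {Q : Type} [Group Q] (f : G →* Q)
    (hf : Function.Surjective f) (hfo : IsOpen (f.ker : Set G)) (y : Q) (hy : y ∈ Res Q) :
    ∃ h ∈ TRes G, f h = y := by
  have hTn : (TRes G).Normal := TRes_normal
  have hZo : IsOpen ((TRes G ⊔ f.ker : Subgroup G) : Set G) :=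
    Subgroup.isOpen_mono le_sup_right hfo
  have hZn : (TRes G ⊔ f.ker).Normal := inferInstance
  obtain ⟨T, hT, hTZ⟩ := exists_finset {N : Subgroup G | NS N ∧ IsOpen (N : Set G)}
    (fun N hN => hN.2) _ hZo le_sup_left
  have hRn : (Res Q).Normal := Res_normal
  have hWn : ((Res Q).comap f).Normal := hRn.comap f
  have hW : (Res Q).comap f ≤ TRes G ⊔ f.ker := by
    refine le_of_inf hZn hWn T (fun N hN => (hT hN).1) hTZ ?_
    intro N hN hZN
    have h1 : f.ker ≤ N := le_sup_right.trans hZN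
    have h2 : Res Q ≤ N.map f := sInf_le ((hT hN).1.map f hf h1)
    have h3 := Subgroup.comap_mono (f := f) h2
    rw [Subgroup.comap_map_eq, sup_eq_left.2 h1] at h3
    exact h3
  obtain ⟨x, rfl⟩ := hf y
  have h5 : x ∈ TRes G ⊔ f.ker := hW hy
  obtain ⟨h', hh', k, hk, rfl⟩ := Subgroup.mem_sup_of_normal_left.1 h5
  refine ⟨h', hh', ?_⟩
  rw [map_mul, MonoidHom.mem_ker.1 hk, mul_one]

variable (G) in
/-- The second residual. -/
def TRes2 : Subgroup G := (TRes (TRes G)).map (TRes G).subtype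

theorem mem_TRes2 (x : G) :
    x ∈ TRes2 G ↔ ∃ h : x ∈ TRes G, (⟨x, h⟩ : TRes G) ∈ TRes (TRes G) := by
  constructor
  · rintro ⟨y, hy, rfl⟩
    exact ⟨y.2, hy⟩
  · rintro ⟨h, h'⟩
    exact ⟨⟨x, h⟩, h', rfl⟩

/-- Elements of the image of the second residual. -/
theorem TRes2_map [IsTopologicalGroup G] [CompactSpace G] {Q : Type} [Group Q] [Finite Q]
    (f : G →* Q) (hf : Function.Surjective f) (hfo : IsOpen (f.ker : Set G)) (V : Subgroup Q)
    (hV : V.Normal) (hVR : V ≤ Res Q) (v : V) (hv : v ∈ Res V) : ∃ h ∈ TRes2 G, f h = v := by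
  have hc : IsClosed (TRes G : Set G) := TRes_isClosed
  have hcs : CompactSpace (TRes G) := isCompact_iff_compactSpace.1 hc.isCompact
  -- the restriction of `f`
  let f₁ : TRes G →* Q := f.comp (TRes G).subtype
  have hf₁ : IsOpen (f₁.ker : Set (TRes G)) := hfo.preimage continuous_subtype_val
  let J : Subgroup (TRes G) := V.comap f₁
  have hJn : J.Normal := hV.comap f₁
  have hJo : IsOpen (J : Set (TRes G)) := by
    refine Subgroup.isOpen_mono (H₁ := f₁.ker) (fun x hx => ?_) hf₁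
    change f₁ x ∈ V
    rw [MonoidHom.mem_ker.1 hx]
    exact V.one_mem
  have hJc : IsClosed (J : Set (TRes G)) := Subgroup.isClosed_of_isOpen J hJo
  have hJcs : CompactSpace J := isCompact_iff_compactSpace.1 hJc.isCompact
  let f₂ : J →* V := (f₁.comp J.subtype).codRestrict V (fun x => x.2)
  have hf₂ : Function.Surjective f₂ := by
    intro y
    obtain ⟨h, hh, hy⟩ := TRes_map f hf hfo y (hVR y.2)
    have h1 : f₁ ⟨h, hh⟩ ∈ V := by
      change f h ∈ V
      rw [hy]
      exact y.2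
    exact ⟨⟨⟨h, hh⟩, h1⟩, Subtype.ext hy⟩
  have hf₂o : IsOpen (f₂.ker : Set J) := by
    refine Subgroup.isOpen_mono (H₁ := f₁.ker.comap J.subtype) (fun x hx => ?_)
      (hf₁.preimage continuous_subtype_val)
    rw [MonoidHom.mem_ker]
    apply Subtype.ext
    exact hx
  obtain ⟨z, hz, hzv⟩ := TRes_map f₂ hf₂ hf₂o v hv
  have h1 := TRes_mono J hJn z hz
  refine ⟨((z : TRes G) : G), ⟨_, h1, rfl⟩, ?_⟩
  exact congrArg Subtype.val hzv

end top

end Pool.Agent.H418.FP
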