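import Mathlib
import Pool.Agent.H418.FA.AltE

/-!
The alternating fibre power of degree `m` splits if `2 |Γ|` divides `m`.
-/

set_option autoImplicit false

namespace Pool.Agent.H418.FP

open Pool.Agent.H391R2 Pool.Agent.H391R2.T4 Pool.Agent.Y793 Pool.Agent.H418.FA

section split

variable {Γ B : Type} [Group Γ] [Group B] (α : B →* Γ) {m k : ℕ} (e : Fin m ≃ Γ × Fin k)

/-- The permutation of `γ`. -/
def pm (γ : Γ) : Equiv.Perm (Fin m) :=
  e.symm.permCongr (Equiv.prodCongrLeft fun _ : Fin k => Equiv.mulLeft γ)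

theorem pm_apply (γ : Γ) (x : Fin m) : pm e γ x = e.symm (γ * (e x).1, (e x).2) := rfl

theorem pm_mul (γ γ' : Γ) : pm e (γ * γ') = pm e γ * pm e γ' := by
  ext x
  rw [Equiv.Perm.mul_apply, pm_apply, pm_apply, pm_apply, Equiv.apply_symm_apply, mul_assoc]

theorem pm_one : pm e (1 : Γ) = 1 := by
  ext x
  rw [pm_apply, one_mul]
  simp

theorem pm_inv (γ : Γ) : (pm e γ)⁻¹ = pm e γ⁻¹ := by
  rw [inv_eq_iff_mul_eq_one, ← pm_mul, mul_inv_cancel, pm_one]

theorem pm_sign [Finite Γ] (hk : Even k) (γ : Γ) : Equiv.Perm.sign (pm e γ) = 1 := by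
  classical
  have : Fintype Γ := Fintype.ofFinite Γ
  unfold pm
  rw [Equiv.Perm.sign_permCongr, Equiv.Perm.sign_prodCongrLeft, Finset.prod_const,
    Finset.card_univ, Fintype.card_fin]
  obtain ⟨c, rfl⟩ := hk
  rw [pow_add, ← mul_pow, Int.units_mul_self, one_pow]

/-- The splitting. -/
noncomputable def spl [Finite Γ] (hα : Function.Surjective α) (hk : Even k) : Γ →* AltEP α m where
  toFun γ := ⟨(⟨fun x => Function.surjInv hα (e x).1 *
      (Function.surjInv hα (γ⁻¹ * (e x).1))⁻¹, pm e γ⟩, γ), by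
    rw [mem_AltEP]
    refine ⟨fun i => ?_, pm_sign e hk γ⟩
    change α (Function.surjInv hα (e i).1 * (Function.surjInv hα (γ⁻¹ * (e i).1))⁻¹) = γ
    rw [map_mul, map_inv, Function.surjInv_eq hα, Function.surjInv_eq hα, mul_inv_rev, inv_inv,
      mul_inv_cancel_left]⟩
  map_one' := by
    apply Subtype.ext
    apply Prod.ext
    · apply SemidirectProduct.ext
      · funext x
        change Function.surjInv hα (e x).1 * (Function.surjInv hα ((1 : Γ)⁻¹ * (e x).1))⁻¹ = 1
        rw [inv_one, one_mul, mul_inv_cancel]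
      · exact pm_one e
    · rfl
  map_mul' γ γ' := by
    apply Subtype.ext
    apply Prod.ext
    · apply SemidirectProduct.ext
      · funext x
        change Function.surjInv hα (e x).1 * (Function.surjInv hα ((γ * γ')⁻¹ * (e x).1))⁻¹ =
          (Function.surjInv hα (e x).1 * (Function.surjInv hα (γ⁻¹ * (e x).1))⁻¹) *
          (Function.surjInv hα (e ((pm e γ)⁻¹ x)).1 *
            (Function.surjInv hα (γ'⁻¹ * (e ((pm e γ)⁻¹ x)).1))⁻¹)
        rw [pm_inv, pm_apply, Equiv.apply_symm_apply, mul_inv_rev]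
        simp only
        rw [mul_assoc γ'⁻¹, mul_assoc (Function.surjInv hα (e x).1), inv_mul_cancel_left]
      · exact pm_mul e γ γ'
    · rfl

end split

theorem exists_split {Γ B : Type} [Group Γ] [Finite Γ] [Group B] (α : B →* Γ)
    (hα : Function.Surjective α) (m : ℕ) (hm : 2 * Nat.card Γ ∣ m) :
    ∃ s : Γ →* AltEP α m, ∀ γ, altProj α m (s γ) = γ := by
  classical
  have : Fintype Γ := Fintype.ofFinite Γ
  obtain ⟨c, hc⟩ := hm
  have h1 : Fintype.card (Fin m) = Fintype.card (Γ × Fin (2 * c)) := by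
    rw [Fintype.card_fin, Fintype.card_prod, Fintype.card_fin, ← Nat.card_eq_fintype_card, hc]
    ring
  exact ⟨spl α (Fintype.equivOfCardEq h1) hα ⟨c, by ring⟩, fun γ => rfl⟩

end Pool.Agent.H418.FP
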