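import Mathlib
import Pool.Agent.H418.FP.Res
import Pool.Agent.H418.FP.Spl
import Pool.Agent.H418.FA.Two

/-!
The commutator subgroup of the kernel of the projection of an alternating fibre power is perfect.
-/

set_option autoImplicit false

namespace Pool.Agent.H418.FP

open Pool.Agent.H391R2 Pool.Agent.H391R2.T4 Pool.Agent.Y793 Pool.Agent.H418.FA
open scoped commutatorElement

section

variable {Γ B : Type} [Group Γ] [Group B] (α : B →* Γ) (m : ℕ)

/-- The permutations. -/
def aE : alternatingGroup (Fin m) →* AltEP α m where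
  toFun σ := ⟨(⟨1, σ.1⟩, 1), by
    rw [mem_AltEP]
    exact ⟨fun i => map_one α, Equiv.Perm.mem_alternatingGroup.1 σ.2⟩⟩
  map_one' := rfl
  map_mul' σ τ := by
    apply Subtype.ext
    apply Prod.ext
    · apply SemidirectProduct.ext
      · funext x
        change (1 : B) = 1 * 1
        rw [one_mul]
      · rfl
    · change (1 : Γ) = 1 * 1
      rw [one_mul]

/-- The kernel of the projection. -/
def T : Subgroup (AltEP α m) := (altProj α m).ker

theorem mem_T (x : AltEP α m) : x ∈ T α m ↔ x.1.2 = 1 := Iff.rfl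

theorem T_normal : (T α m).Normal := (inferInstance : (altProj α m).ker.Normal)

/-- The commutator subgroup. -/
def K0 : Subgroup (AltEP α m) := ⁅T α m, T α m⁆

theorem K0_normal : (K0 α m).Normal := by
  have := T_normal α m
  exact Subgroup.commutator_normal _ _

theorem K0_le : K0 α m ≤ T α m := by
  have := T_normal α m
  exact Subgroup.commutator_le_left _ _

theorem aE_mem_T (σ : alternatingGroup (Fin m)) : aE α m σ ∈ T α m := rfl

theorem alt_perfect (hm : 5 ≤ m) :
    ⁅(⊤ : Subgroup (alternatingGroup (Fin m))), (⊤ : Subgroup (alternatingGroup (Fin m)))⁆ = ⊤ := by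
  have h1 := altSimple m hm
  have h2 : (⁅(⊤ : Subgroup (alternatingGroup (Fin m))), (⊤ : Subgroup (alternatingGroup (Fin m)))⁆ :
      Subgroup (alternatingGroup (Fin m))).Normal := inferInstance
  rcases h2.eq_bot_or_eq_top with h3 | h3
  · exfalso
    rw [Subgroup.commutator_eq_bot_iff_le_centralizer] at h3
    have h5 : ∀ a b : alternatingGroup (Fin m), a * b = b * a := by
      intro a b
      have h6 := h3 (Subgroup.mem_top b)
      rw [Subgroup.mem_centralizer_iff] at h6
      exact h6 a (Subgroup.mem_top a)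
    -- two noncommuting even permutations
    let i0 : Fin m := ⟨0, by omega⟩
    let i1 : Fin m := ⟨1, by omega⟩
    let i2 : Fin m := ⟨2, by omega⟩
    let i3 : Fin m := ⟨3, by omega⟩
    have n01 : i0 ≠ i1 := by simp [i0, i1]
    have n02 : i0 ≠ i2 := by simp [i0, i2]
    have n12 : i1 ≠ i2 := by simp [i1, i2]
    have n13 : i1 ≠ i3 := by simp [i1, i3]
    have n23 : i2 ≠ i3 := by simp [i2, i3]
    have n03 : i0 ≠ i3 := by simp [i0, i3]
    let a : alternatingGroup (Fin m) := ⟨Equiv.swap i0 i1 * Equiv.swap i1 i2, by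
      rw [Equiv.Perm.mem_alternatingGroup, map_mul, Equiv.Perm.sign_swap n01,
        Equiv.Perm.sign_swap n12]
      rfl⟩
    let b : alternatingGroup (Fin m) := ⟨Equiv.swap i0 i1 * Equiv.swap i1 i3, by
      rw [Equiv.Perm.mem_alternatingGroup, map_mul, Equiv.Perm.sign_swap n01,
        Equiv.Perm.sign_swap n13]
      rfl⟩
    have h6 := congrArg (fun x : alternatingGroup (Fin m) => x.1 i2) (h5 a b)
    have h7 : (a * b).1 i2 = i0 := by
      change (Equiv.swap i0 i1 * Equiv.swap i1 i2) ((Equiv.swap i0 i1 * Equiv.swap i1 i3) i2) = i0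
      rw [Equiv.Perm.mul_apply, Equiv.Perm.mul_apply,
        Equiv.swap_apply_of_ne_of_ne n12.symm n23, Equiv.swap_apply_of_ne_of_ne n02.symm n12.symm,
        Equiv.swap_apply_right, Equiv.swap_apply_right]
    have h8 : (b * a).1 i2 = i1 := by
      change (Equiv.swap i0 i1 * Equiv.swap i1 i3) ((Equiv.swap i0 i1 * Equiv.swap i1 i2) i2) = i1
      rw [Equiv.Perm.mul_apply, Equiv.Perm.mul_apply,
        Equiv.swap_apply_right, Equiv.swap_apply_right,
        Equiv.swap_apply_of_ne_of_ne n01 n03, Equiv.swap_apply_left]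
    apply n01
    rw [← h7, ← h8]
    exact h6
  · exact h3

theorem aE_mem_comm (hm : 5 ≤ m) (J : Subgroup (AltEP α m)) (hJ : (aE α m).range ≤ J) :
    (aE α m).range ≤ ⁅J, J⁆ := by
  have h1 : (aE α m).range = ⁅(aE α m).range, (aE α m).range⁆ := by
    have h2 := congrArg (Subgroup.map (aE α m)) (alt_perfect m hm)
    rw [Subgroup.map_commutator, ← MonoidHom.range_eq_map] at h2
    exact h2.symm
  rw [h1]
  exact Subgroup.commutator_mono hJ hJ

theorem aE_mem_K0 (hm : 5 ≤ m) (σ : alternatingGroup (Fin m)) : aE α m σ ∈ K0 α m :=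
  aE_mem_comm α m hm (T α m) (by
    rintro _ ⟨σ, rfl⟩
    exact aE_mem_T α m σ) ⟨σ, rfl⟩

/-- Generation of the kernel. -/
theorem T_le (N : Subgroup (AltEP α m)) (h1 : ∀ i, coK α m i ≤ N)
    (h2 : ∀ σ, aE α m σ ∈ N) : T α m ≤ N := by
  intro t ht
  let σ : alternatingGroup (Fin m) := ⟨t.1.1.right, by
    rw [Equiv.Perm.mem_alternatingGroup]
    exact ((mem_AltEP α m _).1 t.2).2⟩
  have h3 : t * (aE α m σ)⁻¹ ∈ (inK α m).range := by
    rw [mem_range_inK]
    constructor
    · change t.1.1.right * t.1.1.right⁻¹ = 1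
      rw [mul_inv_cancel]
    · change t.1.2 * (1 : Γ)⁻¹ = 1
      rw [inv_one, mul_one]
      exact ht
  have h4 := N.mul_mem (range_inK_le α m N h1 h3) (h2 σ)
  rwa [inv_mul_cancel_right] at h4

theorem K0_perfect (hm : 5 ≤ m) : ⁅K0 α m, K0 α m⁆ = K0 α m := by
  have hTn := T_normal α m
  have hKn := K0_normal α m
  refine le_antisymm (Subgroup.commutator_le_left _ _) ?_
  have hRn : (⁅K0 α m, K0 α m⁆).Normal := inferInstance
  obtain ⟨R, hR⟩ : ∃ R, R = ⁅K0 α m, K0 α m⁆ := ⟨_, rfl⟩
  rw [← hR] at hRn ⊢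
  have haR : ∀ σ, aE α m σ ∈ R := by
    intro σ
    rw [hR]
    exact aE_mem_comm α m hm (K0 α m) (by
      rintro _ ⟨σ, rfl⟩
      exact aE_mem_K0 α m hm σ) ⟨σ, rfl⟩
  let π : AltEP α m →* AltEP α m ⧸ R := QuotientGroup.mk' R
  have hπ : ∀ x, π x = 1 ↔ x ∈ R := fun x => QuotientGroup.eq_one_iff x
  have h1 : ∀ (i j : Fin m) (x y : AltEP α m), x ∈ coK α m i → y ∈ coK α m j →
      π x * π y = π y * π x := by
    intro i j x y hx hy
    have key : ∀ (l : Fin m) (z : AltEP α m), z ∈ coK α m l → i ≠ l →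
        π x * π z = π z * π x := by
      intro l z hz hil
      have h2 := comm_coK α m i l hil x z hx hz
      rw [mul_inv_eq_one, mul_inv_eq_iff_eq_mul] at h2
      rw [← map_mul, h2, map_mul]
    by_cases hij : i = j
    · subst hij
      -- move `y` to another coordinate
      obtain ⟨l, hl⟩ : ∃ l : Fin m, l ≠ i := by
        have : Nontrivial (Fin m) := Fin.nontrivial_iff_two_le.2 (by omega)
        exact exists_ne i
      obtain ⟨σ, hσ, hσl⟩ := exists_even m (by omega) i l
      have h3 := conj_coK α m i y (aE α m ⟨σ, Equiv.Perm.mem_alternatingGroup.2 hσ⟩) hy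
      have h4 : (aE α m ⟨σ, Equiv.Perm.mem_alternatingGroup.2 hσ⟩).1.1.right i = l := hσl
      rw [h4] at h3
      have h5 := key l _ h3 hl.symm
      have h6 : π (aE α m ⟨σ, Equiv.Perm.mem_alternatingGroup.2 hσ⟩) = 1 := (hπ _).2 (haR _)
      rw [map_mul, map_mul, map_inv, h6, one_mul, inv_one, mul_one] at h5
      exact h5
    · exact key j y hy hij
  have h2 : ∀ (j : Fin m) (y : AltEP α m), y ∈ coK α m j →
      T α m ≤ (Subgroup.centralizer {π y}).comap π := by
    intro j y hy
    apply T_le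
    · intro i x hx
      rw [Subgroup.mem_comap, Subgroup.mem_centralizer_singleton_iff]
      exact h1 i j x y hx hy
    · intro σ
      rw [Subgroup.mem_comap, Subgroup.mem_centralizer_singleton_iff, (hπ _).2 (haR σ), one_mul,
        mul_one]
  have h3 : ∀ t ∈ T α m, T α m ≤ (Subgroup.centralizer {π t}).comap π := by
    intro t ht
    apply T_le
    · intro i x hx
      rw [Subgroup.mem_comap, Subgroup.mem_centralizer_singleton_iff]
      have h4 := h2 i x hx ht
      rw [Subgroup.mem_comap, Subgroup.mem_centralizer_singleton_iff] at h4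
      exact h4.symm
    · intro σ
      rw [Subgroup.mem_comap, Subgroup.mem_centralizer_singleton_iff, (hπ _).2 (haR σ), one_mul,
        mul_one]
  unfold K0
  rw [Subgroup.commutator_le]
  intro x hx y hy
  have h4 := h3 y hy hx
  rw [Subgroup.mem_comap, Subgroup.mem_centralizer_singleton_iff] at h4
  rw [← hπ, map_commutatorElement, commutatorElement_eq_one_iff_mul_comm]
  exact h4

theorem K0_comm (hm : 5 ≤ m) : commutator (K0 α m) = ⊤ := by
  have h1 : (commutator (K0 α m)).map (K0 α m).subtype = K0 α m := by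
    unfold commutator
    rw [Subgroup.map_commutator, ← MonoidHom.range_eq_map, Subgroup.range_subtype,
      K0_perfect α m hm]
  rw [eq_top_iff]
  rintro ⟨x, hx⟩ -
  obtain ⟨y, hy, hyx⟩ := h1.symm ▸ hx
  have h2 : y = ⟨x, hx⟩ := Subtype.ext hyx
  rwa [← h2]

/-- The element with the coordinates `c`, `c⁻¹` at `i`, `j`. -/
def eC (i j : Fin m) (c : α.ker) : AltEP α m :=
  inK α m (Pi.mulSingle i c) * inK α m (Pi.mulSingle j c⁻¹)

theorem eC_mem (hm : 5 ≤ m) (i j : Fin m) (c : α.ker) : eC α m i j c ∈ K0 α m := by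
  classical
  obtain ⟨σ, hσ, hσl⟩ := exists_even m (by omega) i j
  let a := aE α m ⟨σ, Equiv.Perm.mem_alternatingGroup.2 hσ⟩
  have h1 : a * (inK α m (Pi.mulSingle i c))⁻¹ * a⁻¹ = inK α m (Pi.mulSingle j c⁻¹) := by
    rw [← map_inv]
    have h2 : ∀ x y : AltEP α m, x.1.1.right = y.1.1.right → x.1.2 = y.1.2 →
        (∀ l, x.1.1.left l = y.1.1.left l) → x = y := by
      intro x y h1 h2 h3
      apply Subtype.ext
      apply Prod.ext
      · exact SemidirectProduct.ext (funext h3) h1
      · exact h2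
    apply h2
    · exact ((mem_range_inK α m _).1 (conj_inK_mem α m a _)).1
    · exact ((mem_range_inK α m _).1 (conj_inK_mem α m a _)).2
    · intro l
      rw [conj_inK, inK_left]
      change (1 : B) * _ * (1 : B)⁻¹ = _
      rw [one_mul, inv_one, mul_one]
      congr 1
      change ((Pi.mulSingle i c : Fin m → α.ker)⁻¹) (σ⁻¹ l) = _
      rw [Pi.inv_apply]
      by_cases hl : l = j
      · subst hl
        have h3 : σ⁻¹ l = i := by
          rw [Equiv.Perm.inv_eq_iff_eq]
          exact hσl.symm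
        rw [h3, Pi.mulSingle_eq_same, Pi.mulSingle_eq_same]
      · have h3 : σ⁻¹ l ≠ i := by
          intro h
          rw [Equiv.Perm.inv_eq_iff_eq] at h
          exact hl (h.trans hσl)
        rw [Pi.mulSingle_eq_of_ne h3, Pi.mulSingle_eq_of_ne hl, inv_one]
  have h3 : eC α m i j c = ⁅inK α m (Pi.mulSingle i c), a⁆ := by
    unfold eC
    rw [commutatorElement_def, ← h1]
    group
  rw [h3]
  have h4 : inK α m (Pi.mulSingle i c) ∈ T α m := inK_snd α m (Pi.mulSingle i c)
  exact Subgroup.commutator_mem_commutator h4 (aE_mem_T α m _)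

end

end Pool.Agent.H418.FP
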