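import Mathlib
import Pool.Agent.H418.FP.Prf

/-!
The split embedding problem with perfect kernel.
-/

set_option autoImplicit false

namespace Pool.Agent.H418.FP

open Pool.Agent.H391R2 Pool.Agent.H391R2.T4 Pool.Agent.Y793 Pool.Agent.H418.FA
open scoped commutatorElement

section res

variable {Γ B : Type} [Group Γ] [Group B] (α : B →* Γ) (m : ℕ)

/-- The elements of the kernel supported on two coordinates. -/
def sup2 (i j : Fin m) : Subgroup (AltEP α m) where
  carrier := {x | x.1.1.right = 1 ∧ x.1.2 = 1 ∧ ∀ l, l ≠ i → l ≠ j → x.1.1.left l = 1}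
  one_mem' := ⟨rfl, rfl, fun _ _ _ => rfl⟩
  mul_mem' := by
    rintro a b ⟨ha1, ha2, ha3⟩ ⟨hb1, hb2, hb3⟩
    refine ⟨?_, ?_, fun l hl hl' => ?_⟩
    · change a.1.1.right * b.1.1.right = 1
      rw [ha1, hb1, one_mul]
    · change a.1.2 * b.1.2 = 1
      rw [ha2, hb2, one_mul]
    · change (a.1.1 * b.1.1).left l = 1
      rw [wr_mul_left, ha3 l hl hl', ha1, inv_one, Equiv.Perm.coe_one, id, hb3 l hl hl', one_mul]
  inv_mem' := by
    rintro a ⟨ha1, ha2, ha3⟩
    refine ⟨?_, ?_, fun l hl hl' => ?_⟩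
    · change a.1.1.right⁻¹ = 1
      rw [ha1, inv_one]
    · change a.1.2⁻¹ = 1
      rw [ha2, inv_one]
    · change (a.1.1⁻¹).left l = 1
      rw [wr_inv_left, ha1, Equiv.Perm.coe_one, id, ha3 l hl hl', inv_one]

theorem mem_sup2 (i j : Fin m) (x : AltEP α m) : x ∈ sup2 α m i j ↔
    x.1.1.right = 1 ∧ x.1.2 = 1 ∧ ∀ l, l ≠ i → l ≠ j → x.1.1.left l = 1 := Iff.rfl

theorem sup2_le (i j : Fin m) : sup2 α m i j ≤ (inK α m).range := by
  intro x hx
  rw [mem_sup2] at hx
  rw [mem_range_inK]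
  exact ⟨hx.1, hx.2.1⟩

theorem conj_sup2 (i j : Fin m) (x y : AltEP α m) (hx : x ∈ sup2 α m i j) :
    y * x * y⁻¹ ∈ sup2 α m (y.1.1.right i) (y.1.1.right j) := by
  obtain ⟨b, rfl⟩ := sup2_le α m i j hx
  have h1 := conj_inK_mem α m y b
  rw [mem_range_inK] at h1
  rw [mem_sup2] at hx ⊢
  refine ⟨h1.1, h1.2, fun l hl hl' => ?_⟩
  rw [conj_inK]
  have h2 : y.1.1.right⁻¹ l ≠ i := by
    intro h
    apply hl
    rw [← h]
    exact (Equiv.apply_symm_apply y.1.1.right l).symm
  have h2' : y.1.1.right⁻¹ l ≠ j := by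
    intro h
    apply hl'
    rw [← h]
    exact (Equiv.apply_symm_apply y.1.1.right l).symm
  have h3 := hx.2.2 _ h2 h2'
  rw [inK_left] at h3
  rw [h3, mul_one, mul_inv_cancel]

theorem comm_sup2 (i j i' j' : Fin m) (h1 : i ≠ i') (h2 : i ≠ j') (h3 : j ≠ i') (h4 : j ≠ j')
    (x y : AltEP α m) (hx : x ∈ sup2 α m i j) (hy : y ∈ sup2 α m i' j') :
    x * y * x⁻¹ * y⁻¹ = 1 := by
  obtain ⟨b, rfl⟩ := sup2_le α m i j hx
  obtain ⟨c, rfl⟩ := sup2_le α m i' j' hy
  rw [mem_sup2] at hx hy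
  rw [mul_inv_eq_one, mul_inv_eq_iff_eq_mul, ← map_mul, ← map_mul]
  congr 1
  funext k
  by_cases hk : k = i ∨ k = j
  · have h5 : (c k : B) = 1 := hy.2.2 k
      (by rcases hk with hk | hk <;> rw [hk] <;> assumption)
      (by rcases hk with hk | hk <;> rw [hk] <;> assumption)
    have h6 : c k = 1 := Subtype.ext h5
    rw [Pi.mul_apply, Pi.mul_apply, h6, mul_one, one_mul]
  · rw [not_or] at hk
    have h5 : (b k : B) = 1 := hx.2.2 k hk.1 hk.2
    have h6 : b k = 1 := Subtype.ext h5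
    rw [Pi.mul_apply, Pi.mul_apply, h6, mul_one, one_mul]

theorem eC_mem_sup2 (i j : Fin m) (c : α.ker) : eC α m i j c ∈ sup2 α m i j := by
  unfold eC
  rw [← map_mul]
  refine ⟨inK_right α m _, inK_snd α m _, fun l hl hl' => ?_⟩
  change (((Pi.mulSingle i c * Pi.mulSingle j c⁻¹ : Fin m → α.ker) l : α.ker) : B) = 1
  rw [Pi.mul_apply, Pi.mulSingle_eq_of_ne hl, Pi.mulSingle_eq_of_ne hl', one_mul]
  rfl

/-- The elements `eC 0 1 c` are in the residual. -/
theorem eC_res (hm : 5 ≤ m) (c : α.ker) :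
    (⟨eC α m ⟨0, by omega⟩ ⟨1, by omega⟩ c, eC_mem α m hm _ _ c⟩ : K0 α m) ∈ Res (K0 α m) := by
  rw [mem_Res]
  intro N hN
  let i0 : Fin m := ⟨0, by omega⟩
  let i1 : Fin m := ⟨1, by omega⟩
  let i2 : Fin m := ⟨2, by omega⟩
  let i3 : Fin m := ⟨3, by omega⟩
  have n01 : i0 ≠ i1 := by simp [i0, i1]
  have n02 : i0 ≠ i2 := by simp [i0, i2]
  have n12 : i1 ≠ i2 := by simp [i1, i2]
  have n13 : i1 ≠ i3 := by simp [i1, i3]
  have n23 : i2 ≠ i3 := by simp [i2, i3]
  have n03 : i0 ≠ i3 := by simp [i0, i3]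
  let σ : alternatingGroup (Fin m) := ⟨Equiv.swap i0 i2 * Equiv.swap i1 i3, by
    rw [Equiv.Perm.mem_alternatingGroup, map_mul, Equiv.Perm.sign_swap n02,
      Equiv.Perm.sign_swap n13]
    rfl⟩
  have hσ0 : σ.1 i0 = i2 := by
    change (Equiv.swap i0 i2 * Equiv.swap i1 i3) i0 = i2
    rw [Equiv.Perm.mul_apply, Equiv.swap_apply_of_ne_of_ne n01 n03, Equiv.swap_apply_left]
  have hσ1 : σ.1 i1 = i3 := by
    change (Equiv.swap i0 i2 * Equiv.swap i1 i3) i1 = i3
    rw [Equiv.Perm.mul_apply, Equiv.swap_apply_left,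
      Equiv.swap_apply_of_ne_of_ne n03.symm n23.symm]
  have hXn : ((inK α m).range.subgroupOf (K0 α m)).Normal :=
    (range_inK_normal α m).subgroupOf _
  have key := le_of_commuting ((inK α m).range.subgroupOf (K0 α m))
    ((sup2 α m i0 i1).subgroupOf (K0 α m)) ((sup2 α m i2 i3).subgroupOf (K0 α m)) hXn
    (fun x hx => sup2_le α m i0 i1 hx) (fun x hx y hy => ?_) (fun x hx y hy => ?_)
    (fun x hx y hy => ?_) ⟨aE α m σ, aE_mem_K0 α m hm σ⟩ (fun x hx => ?_) N hN
  · exact key (eC_mem_sup2 α m _ _ c)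
  · have h1 : (x : AltEP α m).1.1.right = 1 := ((mem_range_inK α m _).1 hx).1
    have h2 := conj_sup2 α m i0 i1 (y : AltEP α m) (x : AltEP α m) hy
    rw [h1] at h2
    exact h2
  · have h1 : (x : AltEP α m).1.1.right = 1 := ((mem_range_inK α m _).1 hx).1
    have h2 := conj_sup2 α m i2 i3 (y : AltEP α m) (x : AltEP α m) hy
    rw [h1] at h2
    exact h2
  · apply Subtype.ext
    exact comm_sup2 α m i0 i1 i2 i3 n02 n03 n12 n13 _ _ hx hy
  · have h2 := conj_sup2 α m i0 i1 (x : AltEP α m) (aE α m σ) hx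
    have h3 : (aE α m σ).1.1.right i0 = i2 := hσ0
    have h4 : (aE α m σ).1.1.right i1 = i3 := hσ1
    rw [h3, h4] at h2
    exact h2

end res

section ez

variable {Γ B : Type} [Group Γ] [Group B] (α : B →* Γ) (m : ℕ) (s : Γ →* AltEP α m)

/-- The action on the kernel. -/
noncomputable def phi : Γ →* MulAut (K0 α m) :=
  have := K0_normal α m
  (MulAut.conjNormal : AltEP α m →* MulAut (K0 α m)).comp s

theorem phi_apply (γ : Γ) (k : K0 α m) :
    ((phi α m s γ k : K0 α m) : AltEP α m) = s γ * k * (s γ)⁻¹ := by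
  have := K0_normal α m
  exact MulAut.conjNormal_apply (s γ) k

/-- The group `K0 ⋊ Γ`. -/
noncomputable abbrev E0 : Type := (K0 α m) ⋊[phi α m s] Γ

/-- The projection. -/
noncomputable abbrev pr0 : E0 α m s →* Γ := SemidirectProduct.rightHom

theorem finite_E0 [Finite Γ] [Finite B] : Finite (E0 α m s) := by
  have h1 : Finite (Wr B m) := finite_wr B m
  have h2 : Finite (AltEP α m) := Finite.of_injective Subtype.val Subtype.val_injective
  exact Finite.of_equiv _ SemidirectProduct.equivProd.symm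

theorem pr0_surj : Function.Surjective (pr0 α m s) := SemidirectProduct.rightHom_surjective

/-- The map to the fibre power. -/
noncomputable def toA : E0 α m s →* AltEP α m :=
  SemidirectProduct.lift (K0 α m).subtype s (by
    intro γ
    ext1 k
    exact phi_apply α m s γ k)

theorem toA_apply (x : E0 α m s) : toA α m s x = (x.left : AltEP α m) * s x.right := rfl

theorem toA_proj (hs : ∀ γ, altProj α m (s γ) = γ) (x : E0 α m s) :
    altProj α m (toA α m s x) = x.right := by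
  rw [toA_apply, map_mul, hs]
  have h1 : altProj α m (x.left : AltEP α m) = 1 := K0_le α m x.left.2
  rw [h1, one_mul]

/-- The kernel of the projection. -/
noncomputable def kerE : K0 α m ≃* (pr0 α m s).ker :=
  MulEquiv.ofBijective
    ((SemidirectProduct.inl : K0 α m →* E0 α m s).codRestrict (pr0 α m s).ker (fun x => rfl))
    ⟨fun x y h => SemidirectProduct.inl_injective (congrArg Subtype.val h), by
      rintro ⟨⟨k, γ⟩, h⟩
      have h1 : γ = 1 := h
      subst h1
      exact ⟨k, rfl⟩⟩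

theorem kerE_val (k : K0 α m) : ((kerE α m s k : (pr0 α m s).ker) : E0 α m s) =
    SemidirectProduct.inl k := rfl

theorem ker_perfect (hm : 5 ≤ m) : commutator (pr0 α m s).ker = ⊤ := by
  have h1 := congrArg (Subgroup.map (kerE α m s : K0 α m →* (pr0 α m s).ker)) (K0_comm α m hm)
  unfold commutator at h1 ⊢
  rw [Subgroup.map_commutator] at h1
  have h2 : Subgroup.map (kerE α m s : K0 α m →* (pr0 α m s).ker) ⊤ = ⊤ :=
    Subgroup.map_top_of_surjective _ (kerE α m s).surjective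
  rw [h2] at h1
  exact h1

/-- The element of the alternating fibre power of `pr0` with one nontrivial coordinate. -/
theorem single_res (n : ℕ) (i : Fin n) (k : (pr0 α m s).ker) (hk : k ∈ Res (pr0 α m s).ker) :
    (⟨inK (pr0 α m s) n (Pi.mulSingle i k), ⟨_, rfl⟩⟩ : (inK (pr0 α m s) n).range) ∈
      Res (inK (pr0 α m s) n).range := by
  classical
  -- the coordinate subgroup
  let f : (pr0 α m s).ker →* (inK (pr0 α m s) n).range :=
    (inK (pr0 α m s) n).rangeRestrict.comp (MonoidHom.mulSingle (fun _ => (pr0 α m s).ker) i)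
  have hf : ∀ x, f x = ⟨inK (pr0 α m s) n (Pi.mulSingle i x), ⟨_, rfl⟩⟩ := fun x => rfl
  have hinj : Function.Injective f := by
    intro x y h
    rw [hf, hf] at h
    have h1 := congrArg (fun z : (inK (pr0 α m s) n).range => z.1.1.1.left i) h
    change ((Pi.mulSingle i x : Fin n → (pr0 α m s).ker) i : E0 α m s) =
      ((Pi.mulSingle i y : Fin n → (pr0 α m s).ker) i : E0 α m s) at h1
    rw [Pi.mulSingle_eq_same, Pi.mulSingle_eq_same] at h1
    exact Subtype.ext h1
  have hn : f.range.Normal := by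
    refine ⟨?_⟩
    rintro _ ⟨x, rfl⟩ ⟨_, b, rfl⟩
    refine ⟨b i * x * (b i)⁻¹, ?_⟩
    rw [hf, hf]
    apply Subtype.ext
    change inK (pr0 α m s) n _ = inK (pr0 α m s) n b * inK (pr0 α m s) n _ *
      (inK (pr0 α m s) n b)⁻¹
    rw [← map_inv, ← map_mul, ← map_mul]
    congr 1
    funext l
    by_cases hl : l = i
    · subst hl
      rw [Pi.mul_apply, Pi.mul_apply, Pi.inv_apply, Pi.mulSingle_eq_same, Pi.mulSingle_eq_same]
    · rw [Pi.mul_apply, Pi.mul_apply, Pi.inv_apply, Pi.mulSingle_eq_of_ne hl,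
        Pi.mulSingle_eq_of_ne hl, mul_one, mul_inv_cancel]
  let e : (pr0 α m s).ker ≃* f.range := MonoidHom.ofInjective hinj
  have h1 := Res_equiv e k hk
  have h2 := Res_mono f.range hn (e k) h1
  exact h2

theorem range_le_Res (n : ℕ) (hn : 3 ≤ n) :
    (inK (pr0 α m s) n).range ≤ Res (AltEP (pr0 α m s) n) := by
  intro x hx
  rw [mem_Res]
  intro N hN
  exact inK_le_of_NS (pr0 α m s) n hn N hN hx

end ez

end Pool.Agent.H418.FP
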