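import Mathlib
import Pool.Agent.H418.FP.Cor

/-!
Quotients with two semisimple layers, solvable quotients.
-/

set_option autoImplicit false

namespace Pool.Agent.H418.FP

open Pool.Agent.H418.FA

theorem TRes_hom {A C : Type} [Group A] [TopologicalSpace A] [Group C] [TopologicalSpace C]
    (i : A →* C) (hi : Continuous i) (hn : i.range.Normal) (x : A) (hx : x ∈ TRes A) :
    i x ∈ TRes C := by
  rw [mem_TRes] at hx ⊢
  intro N hN hNo
  by_cases h : i.range ≤ N
  · exact h ⟨x, rfl⟩
  · have h1 := NS_comap (ns_subgroupOf hN hn h) i.rangeRestrict i.rangeRestrict_surjective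
    exact hx _ h1 (hNo.preimage hi)

/-- `P` is a finite direct product of nonabelian simple groups. -/
def Semi (P : Type) [Group P] : Prop :=
  ∃ (ι : Type) (_ : Finite ι) (S : ι → Type) (_ : ∀ i, Group (S i)),
    (∀ i, IsSimpleGroup (S i) ∧ ∃ a b : S i, a * b ≠ b * a) ∧ Nonempty (P ≃* ∀ i, S i)

theorem TRes_le_ker {G P : Type} [Group G] [TopologicalSpace G] [IsTopologicalGroup G] [Group P]
    (hP : Semi P) (f : G →* P) (hf : Function.Surjective f) (hfo : IsOpen (f.ker : Set G)) :
    TRes G ≤ f.ker := by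
  classical
  obtain ⟨ι, _, S, _, hS, ⟨e⟩⟩ := hP
  intro x hx
  rw [mem_TRes] at hx
  rw [MonoidHom.mem_ker]
  apply e.injective
  rw [map_one]
  funext i
  have := (hS i).1
  let fi : G →* S i := (Pi.evalMonoidHom S i).comp ((e : P →* ∀ i, S i).comp f)
  have hfi : Function.Surjective fi := by
    intro y
    obtain ⟨x, hx⟩ := hf (e.symm (Pi.mulSingle i y))
    refine ⟨x, ?_⟩
    change e (f x) i = y
    rw [hx, MulEquiv.apply_symm_apply, Pi.mulSingle_eq_same]
  have h1 := hx fi.ker (NS.of_ker (hS i).2 fi hfi) (by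
    refine Subgroup.isOpen_mono (H₁ := f.ker) (fun z hz => ?_) hfo
    rw [MonoidHom.mem_ker] at hz ⊢
    change e (f z) i = 1
    rw [hz, map_one]
    rfl)
  exact h1

/-- Two semisimple layers. -/
theorem TRes2_le {G P Q : Type} [Group G] [TopologicalSpace G] [IsTopologicalGroup G]
    [Group P] [Group Q] (f : G →* P) (hf : Function.Surjective f)
    (hfo : IsOpen (f.ker : Set G)) (σ : P →* Q) (hσ : Function.Surjective σ) (hQ : Semi Q)
    (hk : Semi σ.ker) : TRes2 G ≤ f.ker := by
  have h1 : TRes G ≤ (σ.comp f).ker := by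
    refine TRes_le_ker hQ (σ.comp f) (hσ.comp hf) ?_
    refine Subgroup.isOpen_mono (H₁ := f.ker) (fun z hz => ?_) hfo
    rw [MonoidHom.mem_ker] at hz ⊢
    rw [MonoidHom.comp_apply, hz, map_one]
  let f' : (σ.comp f).ker →* σ.ker := (f.comp (σ.comp f).ker.subtype).codRestrict σ.ker
    (fun x => x.2)
  have hf' : Function.Surjective f' := by
    rintro ⟨y, hy⟩
    obtain ⟨x, rfl⟩ := hf y
    exact ⟨⟨x, hy⟩, rfl⟩
  have hfo' : IsOpen (f'.ker : Set (σ.comp f).ker) := by
    refine Subgroup.isOpen_mono (H₁ := f.ker.comap (σ.comp f).ker.subtype) (fun x hx => ?_)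
      (hfo.preimage continuous_subtype_val)
    rw [MonoidHom.mem_ker]
    apply Subtype.ext
    exact hx
  have h2 := TRes_le_ker hk f' hf' hfo'
  intro x hx
  obtain ⟨h3, h4⟩ := (mem_TRes2 x).1 hx
  have h5 := TRes_hom (Subgroup.inclusion h1)
    (continuous_subtype_val.subtype_mk _) ?_ _ h4
  · exact congrArg Subtype.val (h2 h5)
  · refine ⟨?_⟩
    rintro _ ⟨y, rfl⟩ z
    have hn : (TRes G).Normal := TRes_normal
    exact ⟨⟨(z : G) * y * (z : G)⁻¹, hn.conj_mem _ y.2 _⟩, rfl⟩

theorem not_NS_of_solvable {Q : Type} [Group Q] (hQ : Group.IsSolvable Q) (N : Subgroup Q)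
    (hN : NS N) : False := by
  have h1 : ∀ k, ¬ derivedSeries Q k ≤ N := by
    intro k
    induction k with
    | zero =>
      intro h
      obtain ⟨a, b, hab⟩ := hN.ncomm
      exact hab (h (Subgroup.mem_top _))
    | succ k ih =>
      intro h
      have h2 := hN.sup_eq_top (derivedSeries_normal Q k) ih
      obtain ⟨a, ha, b, hb, hab⟩ := hN.exists_comm h2 h2
      apply hab
      apply h
      rw [derivedSeries_succ]
      exact Subgroup.commutator_mem_commutator ha hb
  obtain ⟨k, hk⟩ := hQ.solvable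
  exact h1 k (hk ▸ bot_le)

/-- Solvable quotients. -/
theorem solvable_quot {G Q : Type} [Group G] [TopologicalSpace G] [IsTopologicalGroup G]
    [CompactSpace G] [Group Q] (hQ : Group.IsSolvable Q) (f : G →* Q)
    (hf : Function.Surjective f) (hfo : IsOpen (f.ker : Set G)) (h : TRes2 G ≤ f.ker) (y : Q) :
    y = 1 := by
  have hR : ∀ y : Q, y ∈ Res Q := by
    intro y
    rw [mem_Res]
    intro N hN
    exact (not_NS_of_solvable hQ N hN).elim
  have hc : IsClosed (TRes G : Set G) := TRes_isClosed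
  have hcs : CompactSpace (TRes G) := isCompact_iff_compactSpace.1 hc.isCompact
  obtain ⟨x, hx, hxy⟩ := TRes_map (f.comp (TRes G).subtype) (fun y => by
    obtain ⟨x, hx, hxy⟩ := TRes_map f hf hfo y (hR y)
    exact ⟨⟨x, hx⟩, hxy⟩) (hfo.preimage continuous_subtype_val) y (hR y)
  rw [← hxy]
  exact h ⟨x, hx, rfl⟩

end Pool.Agent.H418.FP
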