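import Mathlib
import Pool.Prelude.Def_F_b1b78ff3
import Pool.Agent.H418.FP.Two
import Pool.Agent.H418.FA.Main
import Pool.Graph.R_pool_sql_team_seeded_63374d34.N70.PP.VocB

/-!
Fields of odd characteristic.
-/

set_option autoImplicit false

namespace Pool.Agent.H418.FP

open Pool.Agent.H391R2 Pool.Agent.H391R2.T4 Pool.Agent.Y793 Pool.Agent.H418.FA
open Pool.Agent.N70.EP.Voc Pool.Agent.N70.PP.Voc

section

variable (K Ω : Type) [Field K] [Field Ω] [Algebra K Ω] [IsSepClosed Ω] [IsGalois K Ω]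

/-- From a proper solution to a homomorphism of the absolute Galois group. -/
theorem hom_of_proper (L : IntermediateField K Ω) [FiniteDimensional K L] [IsGalois K L]
    {E : Type} [Group E] (π : E →* (L ≃ₐ[K] L)) (h : ProperSolution π) :
    ∃ g : (Ω ≃ₐ[K] Ω) →* E, IsOpen (g.ker : Set (Ω ≃ₐ[K] Ω)) ∧ Function.Surjective g ∧
      ∀ x, π (g x) = AlgEquiv.restrictNormalHom L x := by
  obtain ⟨M, j1, j2, j3, j4, j5, j6, γ, hγ⟩ := h
  have hfdL : FiniteDimensional L M := FiniteDimensional.right K L M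
  have hsep : Algebra.IsSeparable L M := Algebra.isSeparable_tower_top_of_isSeparable K L M
  let j : M →ₐ[L] Ω := IsSepClosed.lift
  let _ : Algebra M Ω := j.toRingHom.toAlgebra
  have hjv : ∀ x : M, algebraMap M Ω x = j x := fun x => rfl
  have hT : IsScalarTower L M Ω := IsScalarTower.of_algebraMap_eq fun x => (j.commutes x).symm
  have hT2 : IsScalarTower K M Ω := by
    refine IsScalarTower.of_algebraMap_eq fun x => ?_
    rw [IsScalarTower.algebraMap_apply K L M, ← IsScalarTower.algebraMap_apply L M Ω,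
      ← IsScalarTower.algebraMap_apply K L Ω]
  let g : (Ω ≃ₐ[K] Ω) →* E := (γ : (M ≃ₐ[K] M) →* E).comp (AlgEquiv.restrictNormalHom M)
  have hg : ∀ x, g x = γ (AlgEquiv.restrictNormalHom M x) := fun x => rfl
  refine ⟨g, ?_, ?_, ?_⟩
  · let R : IntermediateField K Ω := (IsScalarTower.toAlgHom K M Ω).fieldRange
    have hR : FiniteDimensional K R := by
      exact LinearMap.finiteDimensional_range (IsScalarTower.toAlgHom K M Ω).toLinearMap
    refine Subgroup.isOpen_mono (H₁ := R.fixingSubgroup) ?_ (IntermediateField.fixingSubgroup_isOpen R)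
    intro x hx
    rw [MonoidHom.mem_ker, hg, EmbeddingLike.map_eq_one_iff]
    apply AlgEquiv.ext
    intro y
    apply (algebraMap M Ω).injective
    rw [IntermediateField.mem_fixingSubgroup_iff] at hx
    have h1 := AlgEquiv.restrictNormal_commutes x M y
    rw [AlgEquiv.one_apply]
    refine h1.trans ?_
    exact hx _ ⟨y, rfl⟩
  · intro e
    obtain ⟨x, hx⟩ := AlgEquiv.restrictNormalHom_surjective (F := K) (K₁ := M) Ω (γ.symm e)
    refine ⟨x, ?_⟩
    rw [hg, hx, MulEquiv.apply_symm_apply]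
  · intro x
    rw [hg, hγ]
    apply AlgEquiv.ext
    intro y
    apply (algebraMap L Ω).injective
    have h1 := AlgEquiv.restrictNormal_commutes x L y
    have h2 := AlgEquiv.restrictNormal_commutes x M (algebraMap L M y)
    have h3 := AlgEquiv.restrictNormal_commutes (AlgEquiv.restrictNormalHom M x) L y
    have h4 : algebraMap L Ω (((AlgEquiv.restrictNormalHom M x).restrictNormal L) y) =
        algebraMap M Ω (algebraMap L M (((AlgEquiv.restrictNormalHom M x).restrictNormal L) y)) :=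
      IsScalarTower.algebraMap_apply L M Ω _
    rw [h4, h3]
    refine h2.trans ?_
    rw [← IsScalarTower.algebraMap_apply L M Ω]
    exact h1.symm

/-- The isomorphism of the fibre powers. -/
def twAlt {Γ B : Type} [Group Γ] [Group B] (α : B →* Γ) (n : ℕ) :
    TwPow α 1 n →* AltEP α n where
  toFun z := ⟨z.1, by
    rw [mem_AltEP]
    exact ⟨z.2.1, z.2.2⟩⟩
  map_one' := rfl
  map_mul' _ _ := rfl

theorem twAlt_surj {Γ B : Type} [Group Γ] [Group B] (α : B →* Γ) (n : ℕ) :
    Function.Surjective (twAlt α n) := by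
  intro z
  have h := (mem_AltEP α n _).1 z.2
  exact ⟨⟨z.1, h.1, h.2⟩, rfl⟩

theorem perfSolv (p : ℕ) [Fact p.Prime] (hp : p ≠ 2) [CharP K p] (hK : HilbField K) :
    PerfSolv (Ω ≃ₐ[K] Ω) := by
  intro Γ B _ _ _ _ q hq hqs α hα hperf N
  let Uc : ClosedSubgroup (Ω ≃ₐ[K] Ω) := ⟨q.ker, Subgroup.isClosed_of_isOpen _ hq⟩
  let L : IntermediateField K Ω := IntermediateField.fixedField q.ker
  have hL : L.fixingSubgroup = q.ker := InfiniteGalois.fixingSubgroup_fixedField Uc
  have hLfd : FiniteDimensional K L := by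
    rw [← InfiniteGalois.isOpen_iff_finite]
    change IsOpen (L.fixingSubgroup : Set (Ω ≃ₐ[K] Ω))
    rw [hL]
    exact hq
  have hLg : IsGalois K L := by
    rw [← InfiniteGalois.normal_iff_isGalois, hL]
    infer_instance
  have hrs : Function.Surjective (AlgEquiv.restrictNormalHom L : (Ω ≃ₐ[K] Ω) →* _) :=
    AlgEquiv.restrictNormalHom_surjective (F := K) (K₁ := L) Ω
  have hrk : (AlgEquiv.restrictNormalHom L : (Ω ≃ₐ[K] Ω) →* (L ≃ₐ[K] L)).ker = q.ker := by
    rw [IntermediateField.restrictNormalHom_ker, hL]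
  let e₁ := QuotientGroup.quotientKerEquivOfSurjective
    (AlgEquiv.restrictNormalHom L : (Ω ≃ₐ[K] Ω) →* (L ≃ₐ[K] L)) hrs
  let e₂ := QuotientGroup.quotientKerEquivOfSurjective q hqs
  let e : (L ≃ₐ[K] L) ≃* Γ :=
    (e₁.symm.trans (QuotientGroup.quotientMulEquivOfEq hrk)).trans e₂
  have he : ∀ x, e (AlgEquiv.restrictNormalHom L x) = q x := by
    intro x
    have h1 : e₁.symm (AlgEquiv.restrictNormalHom L x) = QuotientGroup.mk x := by
      rw [MulEquiv.symm_apply_eq]
      rfl
    change e₂ (QuotientGroup.quotientMulEquivOfEq hrk (e₁.symm (AlgEquiv.restrictNormalHom L x))) = _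
    rw [h1]
    rfl
  obtain ⟨n, hn, -, h⟩ := Pool.Agent.N70.PP.fib_one hp α hα hperf (N + 5)
  obtain ⟨g, hg1, hg2, hg3⟩ := hom_of_proper K Ω L _ ((h K L e).2 hK)
  refine ⟨n, by omega, by omega, (twAlt α n).comp g, ?_, (twAlt_surj α n).comp hg2, fun x => ?_⟩
  · refine Subgroup.isOpen_mono (H₁ := g.ker) ?_ hg1
    intro x hx
    rw [MonoidHom.mem_ker] at hx ⊢
    rw [MonoidHom.comp_apply, hx, map_one]
  · have h1 : e (e.symm (twPr α 1 n (g x))) = e (AlgEquiv.restrictNormalHom L x) :=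
      congrArg e (hg3 x)
    rw [e.apply_symm_apply, he] at h1
    exact h1

end

theorem solvesAllEP_sep {F Ω : Type} [Field F] [Field Ω] [Algebra F Ω] [IsSepClosed Ω]
    [IsGalois F Ω] (h : SolvesAll (Ω ≃ₐ[F] Ω)) : SolvesAllEP F := by
  intro L _ _ _ _ B _ _ α hα
  let j : L →ₐ[F] Ω := IsSepClosed.lift
  let _ : Algebra L Ω := j.toRingHom.toAlgebra
  have hT : IsScalarTower F L Ω := IsScalarTower.of_algebraMap_eq fun x => (j.commutes x).symm
  have hfinG : Finite (L ≃ₐ[F] L) := inferInstance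
  obtain ⟨ψ, hψ, hψs, hψα⟩ := h (L ≃ₐ[F] L) B (AlgEquiv.restrictNormalHom L) (by
      let R : IntermediateField F Ω := (IsScalarTower.toAlgHom F L Ω).fieldRange
      have hR : FiniteDimensional F R := by
        exact LinearMap.finiteDimensional_range (IsScalarTower.toAlgHom F L Ω).toLinearMap
      refine Subgroup.isOpen_mono (H₁ := R.fixingSubgroup) ?_
        (IntermediateField.fixingSubgroup_isOpen R)
      intro x hx
      rw [MonoidHom.mem_ker]
      apply AlgEquiv.ext
      intro y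
      apply (algebraMap L Ω).injective
      rw [IntermediateField.mem_fixingSubgroup_iff] at hx
      have h1 := AlgEquiv.restrictNormal_commutes x L y
      rw [AlgEquiv.one_apply]
      refine h1.trans ?_
      exact hx _ ⟨y, rfl⟩)
    (AlgEquiv.restrictNormalHom_surjective (F := F) (K₁ := L) Ω) α hα
  -- the field
  let Uc : ClosedSubgroup (Ω ≃ₐ[F] Ω) := ⟨ψ.ker, Subgroup.isClosed_of_isOpen _ hψ⟩
  let M : IntermediateField F Ω := IntermediateField.fixedField ψ.ker
  have hM : M.fixingSubgroup = ψ.ker := InfiniteGalois.fixingSubgroup_fixedField Uc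
  have hMfd : FiniteDimensional F M := by
    rw [← InfiniteGalois.isOpen_iff_finite]
    change IsOpen (M.fixingSubgroup : Set (Ω ≃ₐ[F] Ω))
    rw [hM]
    exact hψ
  have hMg : IsGalois F M := by
    rw [← InfiniteGalois.normal_iff_isGalois, hM]
    infer_instance
  have hrs : Function.Surjective (AlgEquiv.restrictNormalHom M : (Ω ≃ₐ[F] Ω) →* _) :=
    AlgEquiv.restrictNormalHom_surjective (F := F) (K₁ := M) Ω
  have hrk : (AlgEquiv.restrictNormalHom M : (Ω ≃ₐ[F] Ω) →* (M ≃ₐ[F] M)).ker = ψ.ker := by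
    rw [IntermediateField.restrictNormalHom_ker, hM]
  let e₁ := QuotientGroup.quotientKerEquivOfSurjective
    (AlgEquiv.restrictNormalHom M : (Ω ≃ₐ[F] Ω) →* (M ≃ₐ[F] M)) hrs
  let e₂ := QuotientGroup.quotientKerEquivOfSurjective ψ hψs
  let γ : (M ≃ₐ[F] M) ≃* B := (e₁.symm.trans (QuotientGroup.quotientMulEquivOfEq hrk)).trans e₂
  have hγ : ∀ x, γ (AlgEquiv.restrictNormalHom M x) = ψ x := by
    intro x
    have h1 : e₁.symm (AlgEquiv.restrictNormalHom M x) = QuotientGroup.mk x := by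
      rw [MulEquiv.symm_apply_eq]
      rfl
    change e₂ (QuotientGroup.quotientMulEquivOfEq hrk
      (e₁.symm (AlgEquiv.restrictNormalHom M x))) = _
    rw [h1]
    rfl
  -- `L` is contained in `M`
  have hmem : ∀ x : L, algebraMap L Ω x ∈ M := by
    intro x
    rw [IntermediateField.mem_fixedField_iff]
    intro σ hσ
    rw [MonoidHom.mem_ker] at hσ
    have h1 := hψα σ
    rw [hσ, map_one] at h1
    have h2 := AlgEquiv.restrictNormal_commutes σ L x
    have h3 : AlgEquiv.restrictNormal σ L = 1 := h1.symm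
    rw [h3, AlgEquiv.one_apply] at h2
    exact h2.symm
  let i : L →+* M := (algebraMap L Ω).codRestrict M hmem
  let _ : Algebra L M := i.toAlgebra
  have hi : ∀ x : L, ((algebraMap L M x : M) : Ω) = algebraMap L Ω x := fun x => rfl
  have hT2 : IsScalarTower F L M := by
    refine IsScalarTower.of_algebraMap_eq fun x => ?_
    apply Subtype.ext
    rw [hi, ← IsScalarTower.algebraMap_apply F L Ω]
    rfl
  refine ⟨M, inferInstance, inferInstance, inferInstance, hT2, hMfd, hMg, γ, fun σ x => ?_⟩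
  obtain ⟨τ, rfl⟩ := hrs σ
  rw [hγ, hψα]
  apply Subtype.ext
  rw [hi]
  have h2 := AlgEquiv.restrictNormal_commutes τ L x
  have h3 := AlgEquiv.restrictNormal_commutes τ M (algebraMap L M x)
  refine h3.trans ?_
  refine Eq.trans ?_ h2.symm
  rfl

section main

variable {K Ω : Type} [Field K] [Field Ω] [Algebra K Ω] [IsGalois K Ω]

/-- The fixed field of the kernel of a homomorphism. -/
theorem exists_field_of_hom {E : Type} [Group E] (f : (Ω ≃ₐ[K] Ω) →* E)
    (hf : Function.Surjective f) (hfo : IsOpen (f.ker : Set (Ω ≃ₐ[K] Ω))) :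
    ∃ M : IntermediateField K Ω, M.fixingSubgroup = f.ker ∧ FiniteDimensional K M ∧
      IsGalois K M ∧ Nonempty ((M ≃ₐ[K] M) ≃* E) := by
  let Uc : ClosedSubgroup (Ω ≃ₐ[K] Ω) := ⟨f.ker, Subgroup.isClosed_of_isOpen _ hfo⟩
  let M : IntermediateField K Ω := IntermediateField.fixedField f.ker
  have hM : M.fixingSubgroup = f.ker := InfiniteGalois.fixingSubgroup_fixedField Uc
  have hMfd : FiniteDimensional K M := by
    rw [← InfiniteGalois.isOpen_iff_finite]
    change IsOpen (M.fixingSubgroup : Set (Ω ≃ₐ[K] Ω))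
    rw [hM]
    exact hfo
  have hMg : IsGalois K M := by
    rw [← InfiniteGalois.normal_iff_isGalois, hM]
    infer_instance
  have hrs : Function.Surjective (AlgEquiv.restrictNormalHom M : (Ω ≃ₐ[K] Ω) →* _) :=
    AlgEquiv.restrictNormalHom_surjective (F := K) (K₁ := M) Ω
  have hrk : (AlgEquiv.restrictNormalHom M : (Ω ≃ₐ[K] Ω) →* (M ≃ₐ[K] M)).ker = f.ker := by
    rw [IntermediateField.restrictNormalHom_ker, hM]
  let e₁ := QuotientGroup.quotientKerEquivOfSurjective
    (AlgEquiv.restrictNormalHom M : (Ω ≃ₐ[K] Ω) →* (M ≃ₐ[K] M)) hrs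
  let e₂ := QuotientGroup.quotientKerEquivOfSurjective f hf
  exact ⟨M, hM, hMfd, hMg, ⟨(e₁.symm.trans (QuotientGroup.quotientMulEquivOfEq hrk)).trans e₂⟩⟩

/-- `M / K` is a finite Galois extension with two semisimple layers. -/
structure TwoStepExt (M : IntermediateField K Ω) : Prop where
  fin : FiniteDimensional K M
  gal : IsGalois K M
  two : ∃ E : IntermediateField K M, IsGalois K E ∧ Semi (E ≃ₐ[K] E) ∧ Semi (M ≃ₐ[E] M)

theorem Semi.of_equiv {P Q : Type} [Group P] [Group Q] (e : P ≃* Q) (h : Semi P) : Semi Q := by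
  obtain ⟨ι, i1, S, i2, h1, ⟨e'⟩⟩ := h
  exact ⟨ι, i1, S, i2, h1, ⟨e.symm.trans e'⟩⟩

theorem TwoStepExt.le {M : IntermediateField K Ω} (h : TwoStepExt M) :
    TRes2 (Ω ≃ₐ[K] Ω) ≤ M.fixingSubgroup := by
  have hfd := h.fin
  have hg := h.gal
  obtain ⟨E, hE, h1, h2⟩ := h.two
  rw [← IntermediateField.restrictNormalHom_ker]
  refine TRes2_le (AlgEquiv.restrictNormalHom M : (Ω ≃ₐ[K] Ω) →* (M ≃ₐ[K] M))
    (AlgEquiv.restrictNormalHom_surjective (F := K) (K₁ := M) Ω) ?_
    (AlgEquiv.restrictNormalHom E : (M ≃ₐ[K] M) →* (E ≃ₐ[K] E))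
    (AlgEquiv.restrictNormalHom_surjective (F := K) (K₁ := E) M) h1 ?_
  · rw [IntermediateField.restrictNormalHom_ker]
    exact IntermediateField.fixingSubgroup_isOpen M
  · rw [IntermediateField.restrictNormalHom_ker]
    exact Semi.of_equiv (IntermediateField.fixingSubgroupEquiv E).symm h2

/-- No solvable subextensions. -/
theorem eq_bot_of_solvable (F E : IntermediateField K Ω)
    (hF : TRes2 (Ω ≃ₐ[K] Ω) ≤ F.fixingSubgroup) (hEF : E ≤ F) (hfd : FiniteDimensional K E)
    (hg : IsGalois K E) (hs : Group.IsSolvable (E ≃ₐ[K] E)) : E = ⊥ := by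
  have h1 : ∀ y : E ≃ₐ[K] E, y = 1 := by
    refine solvable_quot hs (AlgEquiv.restrictNormalHom E : (Ω ≃ₐ[K] Ω) →* (E ≃ₐ[K] E))
      (AlgEquiv.restrictNormalHom_surjective (F := K) (K₁ := E) Ω) ?_ ?_
    · rw [IntermediateField.restrictNormalHom_ker]
      exact IntermediateField.fixingSubgroup_isOpen E
    · rw [IntermediateField.restrictNormalHom_ker]
      exact hF.trans (IntermediateField.fixingSubgroup_le hEF)
  have h2 : E.fixingSubgroup = ⊤ := by
    rw [eq_top_iff, ← IntermediateField.restrictNormalHom_ker]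
    intro x _
    rw [MonoidHom.mem_ker]
    exact h1 _
  rw [← InfiniteGalois.fixedField_fixingSubgroup E, h2, InfiniteGalois.fixedField_bot]

end main

end Pool.Agent.H418.FP
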